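import Pool.Agent.Helper12.GA.Normal

/-!
# Divisors of the half twist are simple

A positive word with the length and the permutation of the half twist is simple (any two strands
cross at most once): the number of inversions grows at most by one with each letter.
-/

set_option autoImplicit false

namespace Pool.Agent.Helper60.GA

open Finset Pool.Agent.Helper30.GA Pool.Agent.Helper69.LZ Pool.Agent.Helper12.GA

/-- the inversions of the labels at the positions `0, …, n` -/
def inv (n : ℕ) (p : ℕ → ℕ) : Finset (ℕ × ℕ) :=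
  (range (n + 1) ×ˢ range (n + 1)).filter fun x => x.1 < x.2 ∧ p x.2 < p x.1

theorem mem_inv {n : ℕ} {p : ℕ → ℕ} {x : ℕ × ℕ} :
    x ∈ inv n p ↔ x.1 < x.2 ∧ x.2 ≤ n ∧ p x.2 < p x.1 := by
  unfold inv
  rw [mem_filter, mem_product, mem_range, mem_range]
  constructor
  · rintro ⟨⟨_, h2⟩, h3, h4⟩
    exact ⟨h3, by omega, h4⟩
  · rintro ⟨h1, h2, h3⟩
    exact ⟨⟨by omega, by omega⟩, h1, h3⟩

/-- the transposition of `a` and `a + 1` -/
def ts (a j : ℕ) : ℕ := if j = a then a + 1 else if j = a + 1 then a else j

theorem ts_ts (a j : ℕ) : ts a (ts a j) = j := by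
  unfold ts
  split_ifs <;> omega

theorem swp_eq (p : ℕ → ℕ) (a j : ℕ) : swp p a j = p (ts a j) := by
  unfold swp ts
  split_ifs <;> rfl

theorem card_aux {n a : ℕ} (ha : a < n) (p : ℕ → ℕ) {S : Finset (ℕ × ℕ)}
    (hS : ∀ x ∈ S, x ∈ inv n (swp p a) ∧ x ≠ (a, a + 1)) : S.card ≤ (inv n p).card := by
  refine card_le_card_of_injOn (fun x => (ts a x.1, ts a x.2)) ?_ ?_
  · intro x hx
    obtain ⟨h1, h2⟩ := hS x hx
    obtain ⟨h3, h4, h5⟩ := mem_inv.1 h1
    have h6 : ¬ (x.1 = a ∧ x.2 = a + 1) := by
      rintro ⟨h6, h7⟩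
      exact h2 (Prod.ext h6 h7)
    rw [swp_eq, swp_eq] at h5
    refine mem_coe.2 (mem_inv.2 ⟨?_, ?_, h5⟩)
    · show ts a x.1 < ts a x.2
      unfold ts
      split_ifs <;> omega
    · show ts a x.2 ≤ n
      unfold ts
      split_ifs <;> omega
  · intro x _ y _ h
    have h1 : ts a x.1 = ts a y.1 := congrArg Prod.fst h
    have h2 : ts a x.2 = ts a y.2 := congrArg Prod.snd h
    refine Prod.ext ?_ ?_
    · rw [← ts_ts a x.1, h1, ts_ts]
    · rw [← ts_ts a x.2, h2, ts_ts]

theorem card_le {n a : ℕ} (ha : a < n) (p : ℕ → ℕ) :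
    (inv n (swp p a)).card ≤ (inv n p).card + 1 := by
  have h := card_aux ha p (S := (inv n (swp p a)).erase (a, a + 1)) fun x hx =>
    ⟨(mem_erase.1 hx).2, (mem_erase.1 hx).1⟩
  have h2 := pred_card_le_card_erase (s := inv n (swp p a)) (a := (a, a + 1))
  omega

theorem card_le' {n a : ℕ} (ha : a < n) {p : ℕ → ℕ} (h : ¬ p a < p (a + 1)) :
    (inv n (swp p a)).card ≤ (inv n p).card := by
  refine card_aux ha p fun x hx => ⟨hx, ?_⟩
  rintro rfl
  have h5 := (mem_inv.1 hx).2.2
  rw [swp_eq, swp_eq] at h5
  unfold ts at h5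
  simp at h5
  exact h h5

theorem card_prm {n : ℕ} {w : List ℕ} (hw : ∀ a ∈ w, a < n) (p : ℕ → ℕ) :
    (inv n (prm p w)).card ≤ (inv n p).card + w.length := by
  induction w generalizing p with
  | nil => simp
  | cons a w ih =>
    have h1 := ih (fun b hb => hw b (by simp [hb])) (swp p a)
    have h2 := card_le (hw a (by simp)) p
    rw [prm_cons, List.length_cons]
    omega

theorem once_of_card {n : ℕ} {w : List ℕ} (hw : ∀ a ∈ w, a < n) {p : ℕ → ℕ}
    (h : (inv n p).card + w.length ≤ (inv n (prm p w)).card) : Once p w := by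
  induction w generalizing p with
  | nil => trivial
  | cons a w ih =>
    have hw' : ∀ b ∈ w, b < n := fun b hb => hw b (by simp [hb])
    have ha := hw a (by simp)
    have h1 := card_prm hw' (swp p a)
    have h2 := card_le ha p
    rw [prm_cons, List.length_cons] at h
    refine ⟨?_, ih hw' (by omega)⟩
    by_contra h3
    have h4 := card_le' ha h3
    omega

theorem prm_range (p : ℕ → ℕ) (m : ℕ) : ∀ j, prm p (List.range m) j =
    if j < m then p (j + 1) else if j = m then p 0 else p j := by
  induction m with
  | zero =>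
    intro j
    rw [List.range_zero, prm_nil, if_neg (by omega)]
    split_ifs with h
    · rw [h]
    · rfl
  | succ m ih =>
    intro j
    rw [List.range_succ, prm_append, prm_cons, prm_nil]
    unfold swp
    rw [ih, ih, ih]
    split_ifs <;> first | rfl | omega | (congr 1; omega)

theorem prm_down (m : ℕ) : ∀ (p : ℕ → ℕ) (j : ℕ), prm p (wd (down (m + 1))) j =
    if j ≤ m then p (m - j) else p j := by
  induction m with
  | zero =>
    intro p j
    have e : wd (down (0 + 1)) = [] := rfl
    rw [e, prm_nil]
    split_ifs with h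
    · obtain rfl : j = 0 := by omega
      rfl
    · rfl
  | succ m ih =>
    intro p j
    have e : down (m + 1 + 1) = (m + 1 + 1) :: down (m + 1) := by
      unfold down
      rw [show m + 1 + 1 - 1 = (m + 1 - 1) + 1 by omega, List.range_succ_eq_map, List.map_cons,
        List.map_map]
      congr 1
      refine List.map_congr_left fun i _ => ?_
      simp only [Function.comp]
      omega
    rw [e, wd_cons, prm_append, ih, prm_range, prm_range]
    split_ifs <;> first | rfl | omega | (congr 1; omega)

theorem length_down (m : ℕ) : 2 * (wd (down (m + 1))).length = m * (m + 1) := by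
  induction m with
  | zero => rfl
  | succ m ih =>
    have e : down (m + 1 + 1) = (m + 1 + 1) :: down (m + 1) := by
      unfold down
      rw [show m + 1 + 1 - 1 = (m + 1 - 1) + 1 by omega, List.range_succ_eq_map, List.map_cons,
        List.map_map]
      congr 1
      refine List.map_congr_left fun i _ => ?_
      simp only [Function.comp]
      omega
    rw [e, wd_cons, List.length_append, List.length_range, mul_add, ih,
      show m + 1 + 1 - 1 = m + 1 by omega]
    ring

theorem card_inv_id (n : ℕ) : (inv n id).card = 0 := by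
  rw [card_eq_zero, eq_empty_iff_forall_notMem]
  intro x hx
  obtain ⟨h1, _, h3⟩ := mem_inv.1 hx
  simp only [id] at h3
  omega

theorem card_inv_rev (n : ℕ) {p : ℕ → ℕ} (hp : ∀ j ≤ n, p j = n - j) :
    2 * (inv n p).card = n * (n + 1) := by
  have e : (inv n p).card = ∑ j ∈ range (n + 1), j := by
    have e1 : inv n p = (range (n + 1)).biUnion fun j => (range j).map
        ⟨fun i => (i, j), fun i i' h => congrArg Prod.fst h⟩ := by
      ext x
      rw [mem_inv, mem_biUnion]
      constructor
      · rintro ⟨h1, h2, _⟩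
        exact ⟨x.2, mem_range.2 (by omega), mem_map.2 ⟨x.1, mem_range.2 h1, rfl⟩⟩
      · rintro ⟨j, hj, hx⟩
        obtain ⟨i, hi, rfl⟩ := mem_map.1 hx
        rw [mem_range] at hj hi
        refine ⟨hi, ?_, ?_⟩
        · show j ≤ n
          omega
        · show p j < p i
          rw [hp j (by omega), hp i (by omega)]
          omega
    rw [e1, card_biUnion]
    · refine sum_congr rfl fun j _ => ?_
      rw [card_map, card_range]
    · intro j _ j' _ hjj
      rw [Function.onFun, disjoint_left]
      intro x hx hx'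
      obtain ⟨i, _, rfl⟩ := mem_map.1 hx
      obtain ⟨i', _, h⟩ := mem_map.1 hx'
      exact hjj (congrArg Prod.snd h).symm
  rw [e, mul_comm, Finset.sum_range_id_mul_two]
  rw [mul_comm]
  rfl

/-- **a word with the length and the permutation of the half twist is simple** -/
theorem once_of_eq {n : ℕ} {w : List ℕ} (hw : ∀ a ∈ w, a < n)
    (hl : w.length = (wd (down (n + 1))).length)
    (hp : ∀ j ≤ n, prm id w j = prm id (wd (down (n + 1))) j) : Once id w := by
  refine once_of_card hw ?_
  have h1 := card_inv_rev n (p := prm id w) fun j hj => by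
    rw [hp j hj, prm_down, if_pos hj]
    rfl
  have h2 := length_down n
  rw [card_inv_id, hl]
  omega

end Pool.Agent.Helper60.GA
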