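import Pool.Agent.Helper30.GA.Defs
import Pool.Agent.Helper60.LZ.Flip
import Pool.Agent.Helper60.LZ.CaseB2

/-!
# Half twists in a product of simple braids can be moved to the front
-/

set_option autoImplicit false

namespace Pool.Agent.Helper60.GA

open Pool.Agent.Helper30.GA Pool.Agent.Helper60.LZ Pool.Agent.Helper69.LZ

/-- letters less than `n`, any two strands cross at most once -/
def Ok (n : ℕ) (w : List ℕ) : Prop := (∀ a ∈ w, a < n) ∧ Once id w

theorem once_flip_aux {n : ℕ} {w : List ℕ} (hw : ∀ a ∈ w, a < n) {p q : ℕ → ℕ}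
    (hpq : ∀ j ≤ n, q j + p (n - j) = n) (h : Once p w) : Once q (Pool.Agent.Helper30.GA.flip n w) := by
  induction w generalizing p q with
  | nil => trivial
  | cons a w ih =>
    have ha := hw a (by simp)
    obtain ⟨h1, h2⟩ := h
    have e1 := hpq (n - 1 - a) (by omega)
    have e2 := hpq (n - 1 - a + 1) (by omega)
    rw [show n - (n - 1 - a) = a + 1 by omega] at e1
    rw [show n - (n - 1 - a + 1) = a by omega] at e2
    refine ⟨?_, ?_⟩
    · show q (n - 1 - a) < q (n - 1 - a + 1)
      omega
    refine ih (fun b hb => hw b (by simp [hb])) (p := swp p a) ?_ h2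
    intro j hj
    unfold swp
    by_cases h3 : j = n - 1 - a
    · rw [if_pos h3, if_neg (by omega), if_pos (by omega)]
      exact e2
    · by_cases h4 : j = n - 1 - a + 1
      · rw [if_neg h3, if_pos h4, if_pos (by omega)]
        exact e1
      · rw [if_neg h3, if_neg h4, if_neg (by omega), if_neg (by omega)]
        exact hpq j hj

theorem once_flip {n : ℕ} {w : List ℕ} (h : Ok n w) : Ok n (Pool.Agent.Helper30.GA.flip n w) := by
  refine ⟨?_, once_flip_aux h.1 (p := id) (q := id) ?_ h.2⟩
  · intro a ha
    obtain ⟨b, hb, rfl⟩ := List.mem_map.1 ha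
    have := h.1 b hb
    omega
  · intro j hj
    simp only [id]
    omega

theorem flip_flip {n : ℕ} {w : List ℕ} (h : ∀ a ∈ w, a < n) : flip n (Pool.Agent.Helper30.GA.flip n w) = w := by
  unfold Pool.Agent.Helper30.GA.flip
  rw [List.map_map]
  conv_rhs => rw [← List.map_id w]
  refine List.map_congr_left fun a ha => ?_
  have := h a ha
  simp only [Function.comp, id]
  omega

variable {G : Type*} [Group G] {s : ℕ → G} {n : ℕ}

/-- the value of a word -/
def pv (s : ℕ → G) (w : List ℕ) : G := (w.map s).prod

theorem pv_flip (h : Flip.Rel s n) {w : List ℕ} (hw : ∀ a ∈ w, a < n) :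
    pv s w * Flip.D s n = Flip.D s n * pv s (Pool.Agent.Helper30.GA.flip n w) := by
  have hf : ∀ a ∈ Pool.Agent.Helper30.GA.flip n w, a < n := by
    intro a ha
    obtain ⟨b, hb, rfl⟩ := List.mem_map.1 ha
    have := hw b hb
    omega
  have e := Flip.D_word h hf
  have e2 : (Pool.Agent.Helper30.GA.flip n w).map (fun a => n - 1 - a) = w := flip_flip hw
  rw [e2] at e
  exact e.symm

theorem pv_flip_pow (h : Flip.Rel s n) (p : ℕ) {w : List ℕ} (hw : Ok n w) :
    ∃ w', Ok n w' ∧ pv s w * Flip.D s n ^ p = Flip.D s n ^ p * pv s w' := by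
  induction p generalizing w with
  | zero => exact ⟨w, hw, by simp⟩
  | succ p ih =>
    obtain ⟨w', h1, h2⟩ := ih (once_flip hw)
    refine ⟨w', h1, ?_⟩
    rw [pow_succ', ← mul_assoc, pv_flip h hw.1, mul_assoc, h2, mul_assoc]

open Classical in
/-- **the half twists of a product of simple braids can be collected in front** -/
theorem collect (h : Flip.Rel s n) (l : List G)
    (hl : ∀ b ∈ l, ∃ w, Ok n w ∧ b = pv s w) :
    ∃ R : List (List ℕ), (∀ w ∈ R, Ok n w) ∧ R.length + l.count (Flip.D s n) = l.length ∧
      l.prod = Flip.D s n ^ l.count (Flip.D s n) * pv s R.flatten := by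
  induction l with
  | nil => exact ⟨[], by simp, by simp, by simp [pv]⟩
  | cons b l ih =>
    obtain ⟨R, h1, h2, h3⟩ := ih fun b hb => hl b (by simp [hb])
    by_cases hb : b = Flip.D s n
    · subst hb
      refine ⟨R, h1, ?_, ?_⟩
      · rw [List.count_cons_self, List.length_cons, ← h2]
        ring
      · rw [List.count_cons_self, List.prod_cons, h3, pow_succ', mul_assoc]
    · obtain ⟨w, hw, hbw⟩ := hl b (by simp)
      obtain ⟨w', h4, h5⟩ := pv_flip_pow h (l.count (Flip.D s n)) hw
      refine ⟨w' :: R, ?_, ?_, ?_⟩
      · intro x hx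
        rcases List.mem_cons.1 hx with rfl | hx
        · exact h4
        · exact h1 x hx
      · rw [List.count_cons_of_ne (by simpa using hb), List.length_cons, List.length_cons, ← h2]
        ring
      · rw [List.count_cons_of_ne (by simpa using hb), List.prod_cons, h3, hbw, ← mul_assoc, h5,
          mul_assoc]
        congr 1
        unfold pv
        rw [List.flatten_cons, List.map_append, List.prod_append]

theorem D_eq (m : ℕ) : Flip.D s m = pv s (wd (down (m + 1))) := by
  have key : ∀ m : ℕ, Flip.D s m = (((down (m + 1)).flatMap fun r => List.range (r - 1)).map s).prod := by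
    intro m
    induction m with
    | zero => simp [Flip.D, down]
    | succ m ih =>
      have e : down (m + 1 + 1) = (m + 1 + 1) :: down (m + 1) := by
        unfold down
        rw [show m + 1 + 1 - 1 = (m + 1 - 1) + 1 by omega, List.range_succ_eq_map, List.map_cons,
          List.map_map]
        congr 1
        refine List.map_congr_left fun i _ => ?_
        simp only [Function.comp]
        omega
      rw [e, List.flatMap_cons, List.map_append, List.prod_append, ← ih]
      rfl
  exact key m

theorem pv_tw (p : ℕ) : pv s (tw n p) = Flip.D s n ^ p := by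
  induction p with
  | zero => simp [pv, tw]
  | succ p ih =>
    have e : tw n (p + 1) = wd (down (n + 1)) ++ tw n p := by
      unfold tw
      rw [List.replicate_succ, List.flatten_cons]
    rw [e, pow_succ', ← ih, D_eq]
    unfold pv
    rw [List.map_append, List.prod_append]

open Classical in
/-- the form needed for the theorem on products of simple braids -/
theorem collect' (h : Flip.Rel s n) (l : List G)
    (hl : ∀ b ∈ l, ∃ w, Ok n w ∧ b = pv s w) (h3 : l.length ≤ 3 * l.count (Flip.D s n)) :
    ∃ R : List (List ℕ), (∀ w ∈ R, Ok n w) ∧ R.length ≤ 2 * l.count (Flip.D s n) ∧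
      l.prod = pv s (tw n (l.count (Flip.D s n)) ++ R.flatten) := by
  obtain ⟨R, h1, h2, h4⟩ := collect h l hl
  refine ⟨R, h1, by omega, ?_⟩
  rw [h4, ← pv_tw]
  unfold pv
  rw [List.map_append, List.prod_append]

end Pool.Agent.Helper60.GA
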