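import Pool.Agent.Helper43.GA.Adm
import Pool.Agent.Helper60.GA.Order

/-!
# Products of half twists, pairs of simple braids and layers, in any order
-/

set_option autoImplicit false

namespace Pool.Agent.Helper60.GA

open Pool.Agent.Helper30.GA Pool.Agent.Helper60.LZ Pool.Agent.Helper43.GA

variable {G : Type*} [Group G] {s : ℕ → G} {n : ℕ}

theorem pv_append (u v : List ℕ) : pv s (u ++ v) = pv s u * pv s v := by
  unfold pv
  rw [List.map_append, List.prod_append]

theorem pv_iter (h : Flip.Rel s n) (p : ℕ) : ∀ {w : List ℕ}, (∀ a ∈ w, a < n) →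
    pv s w * Flip.D s n ^ p = Flip.D s n ^ p * pv s ((Helper30.GA.flip n)^[p] w) := by
  induction p with
  | zero => intro w _; simp
  | succ p ih =>
    intro w hw
    rw [pow_succ', ← mul_assoc, pv_flip h hw, mul_assoc, ih (Helper85.GA.flip_lt hw), mul_assoc,
      Function.iterate_succ_apply]

theorem lt_iter (p : ℕ) {w : List ℕ} (hw : ∀ a ∈ w, a < n) :
    ∀ a ∈ (Helper30.GA.flip n)^[p] w, a < n := by
  induction p with
  | zero => exact hw
  | succ p ih =>
    rw [Function.iterate_succ_apply']
    exact Helper85.GA.flip_lt ih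

theorem once_iter (p : ℕ) {w : List ℕ} (hw : Ok n w) : Ok n ((Helper30.GA.flip n)^[p] w) := by
  induction p with
  | zero => exact hw
  | succ p ih =>
    rw [Function.iterate_succ_apply']
    exact once_flip ih

theorem layer_iter (p : ℕ) {w : List ℕ} (hw : ∀ a ∈ w, a < n) (hl : Layer w) :
    Layer ((Helper30.GA.flip n)^[p] w) := by
  induction p with
  | zero => exact hl
  | succ p ih =>
    rw [Function.iterate_succ_apply']
    exact layer_flip (lt_iter p hw) ih

/-- a pair in front -/
theorem front_pair (h : Flip.Rel s n) {p c : ℕ} {u v W : List ℕ} (hu : Ok n u) (hv : Ok n v)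
    (hW : Adm n W c) : ∃ W', Adm n W' (c + (n + 1)) ∧
      pv s u * pv s v * (Flip.D s n ^ p * pv s W) = Flip.D s n ^ p * pv s W' := by
  have hu' := once_iter p hu
  have hv' := once_iter p hv
  refine ⟨_, Adm.pair hu'.1 hv'.1 hu'.2 hv'.2 hW, ?_⟩
  rw [pv_append, pv_append, ← mul_assoc, mul_assoc (pv s u), pv_iter h p hv.1, ← mul_assoc (pv s u),
    pv_iter h p hu.1]
  simp only [mul_assoc]

/-- a layer in front -/
theorem front_layer (h : Flip.Rel s n) {p c : ℕ} {v W : List ℕ} (hv : ∀ a ∈ v, a < n)
    (hl : Layer v) (hW : Adm n W c) : ∃ W', Adm n W' (c + 2) ∧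
      pv s v * (Flip.D s n ^ p * pv s W) = Flip.D s n ^ p * pv s W' := by
  refine ⟨_, Adm.layer (lt_iter p hv) (layer_iter p hv hl) hW, ?_⟩
  rw [pv_append, ← mul_assoc, pv_iter h p hv, mul_assoc]

/-- a positive word, letter by letter -/
theorem adm_word {w : List ℕ} (hw : ∀ a ∈ w, a < n) : Adm n w (2 * w.length) := by
  induction w with
  | nil => exact Adm.nil
  | cons a w ih =>
    have h := Adm.layer (n := n) (v := [a]) (by simpa using hw a (by simp))
      (List.pairwise_singleton _ _) (ih fun b hb => hw b (by simp [hb]))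
    rw [List.length_cons, mul_add]
    exact h

end Pool.Agent.Helper60.GA
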